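import Pool.Agent.H68.MN.Main
import Pool.Agent.H68.MN.Metab

set_option autoImplicit false

namespace Pool.Agent.Results.MP_5f4fc7_al.LeastDerivedLength

/-- There is a soluble group of derived length at most `d` that satisfies the maximal condition on
normal subgroups and has no maximal nilpotent subgroup if and only if `d ≥ 3`. -/
theorem result (d : ℕ) :
    (∃ (G : Type) (_ : Group G),
      derivedSeries G d = ⊥ ∧
      (∀ f : ℕ → Subgroup G, (∀ n, (f n).Normal) → Monotone f →
        ∃ n, ∀ m, n ≤ m → f m = f n) ∧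
      (∀ H : Subgroup G, Group.IsNilpotent (↥H) →
        ∃ K : Subgroup G, Group.IsNilpotent (↥K) ∧ H < K)) ↔ 3 ≤ d := by
  constructor
  · rintro ⟨G, _, hd, hmax, hno⟩
    by_contra hlt
    have h2 : derivedSeries G 2 = ⊥ :=
      le_bot_iff.1 (hd ▸ derivedSeries_antitone G (show d ≤ 2 by omega))
    obtain ⟨M, hM, hM'⟩ := Pool.Agent.H68.MN.metab h2 hmax
    obtain ⟨K, hK, hlt'⟩ := hno M hM
    exact hlt'.ne (hM' K hK hlt'.le).symm
  · intro h
    refine ⟨Pool.Agent.H68.MN.GG, inferInstance, ?_,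
      fun _ h1 h2 => Pool.Agent.H68.MN.maxn h1 h2, Pool.Agent.H68.MN.nomax⟩
    exact le_bot_iff.1 (Pool.Agent.H68.MN.solv3 ▸
      derivedSeries_antitone Pool.Agent.H68.MN.GG h)

end Pool.Agent.Results.MP_5f4fc7_al.LeastDerivedLength
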